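import Pool.Agent.Y892.UF.W8
import Pool.Agent.Y892.UF.G2
import Pool.Agent.H38R2.CG3.All
import Pool.Agent.Q130.RG.Maj

/-!
# Majorities of the products of tiny primes in the class groups of real quadratic fields

By genus theory the ring of integers of `ℚ(√d)`, `d > 1` squarefree, can have unique factorisation only
if `d` is a prime, or twice a prime `≡ 3 mod 4`, or a product of two primes `≡ 3 mod 4`.

For every `a > 2` and `0 < ε < 1/2`, and for 100% of these candidates `d` (and 100% of each kind, and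
100% of all squarefree `d`), there are `y`, `k` with `2 y ≤ (log d)^a` and `2 k ≤ log d / log log d` such
that the following holds for `K = ℚ(√d)` with class number `h` and the `R` ideals of `K` whose norm is a
product of `k` distinct primes of `(y, 2y]`.

* (majorities) For every set of at least `(1/2 + ε) R` of these ideals, every ideal class is the class
  of the product of at least `(ε^3 / 8) R^2 / h` of the pairs of ideals of the set.  The number of
  all pairs is `R^2`, so this is a positive proportion of the expected number.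
* (index) A set of `j` of these ideals generates a subgroup of the class group of index at most
  `R / (j - ε R)`, if `j > ε R`.
* (diameter) After any set of at most `(1/2 - ε) (log log d / log d) N` of the `N` primes of `(y, 2y]`
  which are norms of ideals has been omitted, still every ideal class is the product of the classes of
  exactly `2 k` prime ideals whose norms are among the other ones.
* (majority test) The ring of integers has unique factorisation if and only if more than
  `(1/2 + ε) R` of the `R` ideals are principal.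
-/

set_option autoImplicit false

namespace Pool.Agent.Results.MP_321647_nt.MajorityProducts

open Filter Finset NumberField
open scoped Classical

section defs

variable (K : Type) [Field K] [NumberField K]

/-- The norm of the ideal `I` is a product of `k` distinct primes of `(y, 2y]`. -/
def IsProduct (y k : ℕ) (I : nonZeroDivisors (Ideal (𝓞 K))) : Prop :=
  ∃ s ∈ ((Finset.Ioc y (2 * y)).filter Nat.Prime).powersetCard k,
    Ideal.absNorm (I : Ideal (𝓞 K)) = ∏ p ∈ s, p

/-- The number of the nonzero ideals whose norm is a product of `k` distinct primes of `(y, 2y]`. -/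
noncomputable def total (y k : ℕ) : ℕ :=
  Nat.card {I : nonZeroDivisors (Ideal (𝓞 K)) // IsProduct K y k I}

/-- For every set `J` of at least `(1/2 + ε) R` of the `R` ideals and every ideal class `c`, at least
`(ε^3 / 8) R^2 / h` of the pairs in `J × J` have a product with class `c`. -/
def Majorities (y k : ℕ) (ε : ℝ) : Prop :=
  ∀ J : Finset (nonZeroDivisors (Ideal (𝓞 K))), (∀ I ∈ J, IsProduct K y k I) →
    (1 / 2 + ε) * total K y k ≤ (J.card : ℝ) → ∀ c : ClassGroup (𝓞 K),
      ε ^ 3 / 8 * (total K y k : ℝ) ^ 2 / Nat.card (ClassGroup (𝓞 K)) ≤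
        (((J ×ˢ J).filter (fun z => ClassGroup.mk0 (z.1 * z.2) = c)).card : ℝ)

/-- For every set `J` of the `R` ideals, the index of the subgroup generated by their classes times
`|J| - ε R` is at most `R`. -/
def SmallIndex (y k : ℕ) (ε : ℝ) : Prop :=
  ∀ J : Finset (nonZeroDivisors (Ideal (𝓞 K))), (∀ I ∈ J, IsProduct K y k I) →
    ((Subgroup.closure {c : ClassGroup (𝓞 K) | ∃ I ∈ J, ClassGroup.mk0 I = c}).index : ℝ) *
      ((J.card : ℝ) - ε * total K y k) ≤ total K y k

/-- The primes of `(y, 2y]` which are norms of ideals of the ring of integers of `K`. -/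
noncomputable def norms (y : ℕ) : Finset ℕ :=
  ((Finset.Ioc y (2 * y)).filter Nat.Prime).filter
    (fun p => ∃ P : Ideal (𝓞 K), Ideal.absNorm P = p)

/-- For every subset `T` of `norms K y` which omits at most the proportion `η` of these primes, every
ideal class is the product of the classes of exactly `2 k` prime ideals with norms in `T`. -/
def RobustDiameter (y k : ℕ) (η : ℝ) : Prop :=
  ∀ T : Finset ℕ, T ⊆ norms K y → ((norms K y \ T).card : ℝ) ≤ η * (norms K y).card →
    ∀ c : ClassGroup (𝓞 K), ∃ L : Multiset (nonZeroDivisors (Ideal (𝓞 K))),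
      (∀ P ∈ L, (P : Ideal (𝓞 K)).IsPrime ∧ Ideal.absNorm (P : Ideal (𝓞 K)) ∈ T) ∧
      L.card = 2 * k ∧ (L.map (fun P => ClassGroup.mk0 P)).prod = c

/-- The ring of integers has unique factorisation if and only if more than `(1/2 + ε) R` of the
`R` ideals are principal. -/
def MajorityTest (y k : ℕ) (ε : ℝ) : Prop :=
  UniqueFactorizationMonoid (𝓞 K) ↔ (1 / 2 + ε) * total K y k <
    (Nat.card {I : nonZeroDivisors (Ideal (𝓞 K)) //
      IsProduct K y k I ∧ (I : Ideal (𝓞 K)).IsPrincipal} : ℝ)

end defs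

/-- The property of the integer `d` in the theorem, for every quadratic field containing a square
root of `d`. -/
def Good (a ε : ℝ) (d : ℕ) : Prop :=
  ∀ (K : Type) [Field K] [NumberField K], Module.finrank ℚ K = 2 →
    (∃ x : K, x ^ 2 = (d : K)) →
    ∃ y k : ℕ, 2 * (y : ℝ) ≤ (Real.log d) ^ a ∧
      2 * (k : ℝ) ≤ Real.log d / Real.log (Real.log d) ∧ 0 < total K y k ∧
      Majorities K y k ε ∧ SmallIndex K y k ε ∧
      RobustDiameter K y k ((1 / 2 - ε) * (Real.log (Real.log d) / Real.log d)) ∧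
      MajorityTest K y k ε

/-- `d = 2 p` with a prime `p ≡ 3 mod 4`. -/
def TwicePrime (d : ℕ) : Prop := ∃ p : ℕ, p.Prime ∧ p % 4 = 3 ∧ d = 2 * p

/-- `d = p q` with two different primes `p ≡ q ≡ 3 mod 4`. -/
def PrimePair (d : ℕ) : Prop :=
  ∃ p q : ℕ, p.Prime ∧ q.Prime ∧ p < q ∧ p % 4 = 3 ∧ q % 4 = 3 ∧ d = p * q

/-- The radicands that can have unique factorisation. -/
def Candidate (d : ℕ) : Prop := d.Prime ∨ TwicePrime d ∨ PrimePair d

/-- The proportion of the numbers up to `X` with the property `F` that do not have the property `G`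
tends to zero as `X` tends to infinity. -/
def AlmostAll (F G : ℕ → Prop) : Prop :=
  Tendsto (fun X : ℕ => (((Finset.Icc 1 X).filter (fun d => F d ∧ ¬ G d)).card : ℝ) /
    (((Finset.Icc 1 X).filter F).card : ℝ)) atTop (nhds 0)

theorem total_eq (K : Type) [Field K] [NumberField K] (y k : ℕ) :
    total K y k = (Pool.Agent.Q130.RG.Uf K y k).card :=
  Nat.subtype_card _ fun _ => Pool.Agent.Q130.RG.mem_Uf K

theorem ufd_of {K : Type} [Field K] [NumberField K] {y k : ℕ} {ε : ℝ} (hε : 0 < ε)
    (hε2 : ε < 1 / 2) (hpos : 0 < total K y k) (h : Majorities K y k ε) :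
    MajorityTest K y k ε := by
  have hR : (0 : ℝ) < total K y k := by exact_mod_cast hpos
  have hfin : ({I : nonZeroDivisors (Ideal (𝓞 K)) |
      IsProduct K y k I ∧ (I : Ideal (𝓞 K)).IsPrincipal}).Finite := by
    refine (Pool.Agent.Q130.RG.Uf K y k).finite_toSet.subset ?_
    intro I hI
    exact mem_coe.2 ((Pool.Agent.Q130.RG.mem_Uf K).2 hI.1)
  obtain ⟨J, hJ⟩ : ∃ J, J = hfin.toFinset := ⟨_, rfl⟩
  have hmem : ∀ I, I ∈ J ↔ IsProduct K y k I ∧ (I : Ideal (𝓞 K)).IsPrincipal := by
    intro I
    rw [hJ, Set.Finite.mem_toFinset]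
    rfl
  have hcard : Nat.card {I : nonZeroDivisors (Ideal (𝓞 K)) //
      IsProduct K y k I ∧ (I : Ideal (𝓞 K)).IsPrincipal} = J.card :=
    Nat.subtype_card _ hmem
  unfold MajorityTest
  rw [hcard]
  constructor
  · intro hU
    have hP : IsPrincipalIdealRing (𝓞 K) :=
      IsPrincipalIdealRing.of_isDedekindDomain_of_uniqueFactorizationMonoid (𝓞 K)
    have h1 : J = Pool.Agent.Q130.RG.Uf K y k := by
      ext I
      rw [hmem]
      constructor
      · exact fun h2 => (Pool.Agent.Q130.RG.mem_Uf K).2 h2.1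
      · exact fun h2 => ⟨(Pool.Agent.Q130.RG.mem_Uf K).1 h2, hP.principal _⟩
    rw [h1, ← total_eq]
    nlinarith
  · intro hlt
    have h1 := h J (fun I hI => ((hmem I).1 hI).1) hlt.le
    have htriv : ∀ c : ClassGroup (𝓞 K), c = 1 := by
      intro c
      have h2 : (0 : ℝ) < (((J ×ˢ J).filter
          (fun z => ClassGroup.mk0 (z.1 * z.2) = c)).card : ℝ) := by
        refine lt_of_lt_of_le ?_ (h1 c)
        have : (0 : ℝ) < Nat.card (ClassGroup (𝓞 K)) := by exact_mod_cast Nat.card_pos
        positivity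
      obtain ⟨⟨I, I'⟩, hz⟩ := card_pos.1 (Nat.cast_pos.1 h2)
      obtain ⟨h6, h7⟩ := mem_filter.1 hz
      obtain ⟨hI, hI'⟩ := mem_product.1 h6
      have h8 : ClassGroup.mk0 I = 1 := ClassGroup.mk0_eq_one_iff I.2 |>.2 ((hmem I).1 hI).2
      have h9 : ClassGroup.mk0 I' = 1 := ClassGroup.mk0_eq_one_iff I'.2 |>.2 ((hmem I').1 hI').2
      rw [← h7]
      show ClassGroup.mk0 (I * I') = 1
      rw [map_mul, h8, h9, mul_one]
    have hcard1 : Fintype.card (ClassGroup (𝓞 K)) = 1 := by
      rw [Fintype.card_eq_one_iff]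
      exact ⟨1, htriv⟩
    have : IsPrincipalIdealRing (𝓞 K) := by
      rw [← card_classGroup_eq_one_iff]
      exact hcard1
    infer_instance

theorem good_of {a ε : ℝ} (hε : 0 < ε) (hε2 : ε < 1 / 2) {d : ℕ}
    (h : Pool.Agent.H38R2.CG3.GoodE a ((ε / 4) ^ 2) d) : Good a ε d := by
  intro K _ _ hK hx
  obtain ⟨⟨y, k, hy, hk, hE⟩, -⟩ := h K hK hx
  have hpos : 0 < total K y k := by
    rw [total_eq, ← Pool.Agent.Q130.RG.sum_Uf]
    exact hE.1
  have hsub : ∀ J : Finset (nonZeroDivisors (Ideal (𝓞 K))), (∀ I ∈ J, IsProduct K y k I) →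
      J ⊆ Pool.Agent.Q130.RG.Uf K y k := fun J hJ I hI =>
    (Pool.Agent.Q130.RG.mem_Uf K).2 (hJ I hI)
  have hM : Majorities K y k ε := by
    intro J hJ hJc c
    rw [total_eq] at hJc ⊢
    have h1 := Pool.Agent.Q130.RG.majority K hε hE J (hsub J hJ) hJc c
    simp_rw [map_mul]
    exact h1
  refine ⟨y, k, hy, hk, hpos, hM, ?_, ?_, ufd_of hε hε2 hpos hM⟩
  · intro J hJ
    rw [total_eq]
    exact Pool.Agent.Q130.RG.index_le K hε hE J (hsub J hJ) _
      (fun I hI => Subgroup.subset_closure ⟨I, hI, rfl⟩)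
  · intro T _ hT c
    refine Pool.Agent.Q130.RG.diameter K hK hε hε2 hE T ?_ c
    change 2 * (k : ℝ) * ((norms K y \ T).card : ℝ) ≤ (1 / 2 - ε) * ((norms K y).card : ℝ)
    have hN : (0 : ℝ) ≤ (norms K y).card := Nat.cast_nonneg _
    obtain ⟨l, hl⟩ : ∃ l, l = Real.log d := ⟨_, rfl⟩
    obtain ⟨m, hm⟩ : ∃ m, m = Real.log (Real.log d) := ⟨_, rfl⟩
    rw [← hm, ← hl] at hT
    rw [← hm, ← hl] at hk
    have hlm : 0 ≤ l / m := le_trans (by positivity) hk
    calc 2 * (k : ℝ) * ((norms K y \ T).card : ℝ)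
        ≤ l / m * ((1 / 2 - ε) * (m / l) * ((norms K y).card : ℝ)) :=
          mul_le_mul hk hT (Nat.cast_nonneg _) hlm
      _ = (l / m * (m / l)) * ((1 / 2 - ε) * ((norms K y).card : ℝ)) := by ring
      _ ≤ 1 * ((1 / 2 - ε) * ((norms K y).card : ℝ)) := by
          refine mul_le_mul_of_nonneg_right ?_ (mul_nonneg (by linarith) hN)
          rw [div_mul_div_comm, mul_comm m l]
          exact div_self_le_one _
      _ = (1 / 2 - ε) * ((norms K y).card : ℝ) := one_mul _

theorem almost {F : ℕ → Prop} {a ε : ℝ} (hε : 0 < ε) (hε2 : ε < 1 / 2)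
    (h : Tendsto (fun X : ℕ => (((Finset.Ioc 0 X).filter
      (fun D => F D ∧ ¬ Pool.Agent.H38R2.CG3.GoodE a ((ε / 4) ^ 2) D)).card : ℝ) /
      (((Finset.Ioc 0 X).filter F).card : ℝ)) atTop (nhds 0)) : AlmostAll F (Good a ε) := by
  unfold AlmostAll
  refine squeeze_zero (fun X => by positivity) (fun X => ?_) h
  have e1 : Finset.Ioc 0 X = Finset.Icc 1 X := by
    ext d
    rw [mem_Ioc, mem_Icc]
    omega
  rw [e1]
  refine div_le_div_of_nonneg_right ?_ (Nat.cast_nonneg _)
  have h1 : (Finset.Icc 1 X).filter (fun d => F d ∧ ¬ Good a ε d) ⊆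
      (Finset.Icc 1 X).filter
        (fun D => F D ∧ ¬ Pool.Agent.H38R2.CG3.GoodE a ((ε / 4) ^ 2) D) := by
    intro d hd
    rw [mem_filter] at hd ⊢
    exact ⟨hd.1, hd.2.1, fun hg => hd.2.2 (good_of hε hε2 hg)⟩
  exact_mod_cast card_le_card h1

theorem result :
    ∀ a ε : ℝ, 2 < a → 0 < ε → ε < 1 / 2 →
      AlmostAll Candidate (Good a ε) ∧ AlmostAll Nat.Prime (Good a ε) ∧
        AlmostAll PrimePair (Good a ε) ∧ AlmostAll TwicePrime (Good a ε) ∧
        Tendsto (fun X : ℕ => (((Finset.Icc 2 X).filter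
          (fun d => Squarefree d ∧ ¬ Good a ε d)).card : ℝ) / X) atTop (nhds 0) := by
  intro a ε ha hε hε2
  have hε' : 0 < (ε / 4) ^ 2 := by positivity
  refine ⟨?_, ?_, ?_, ?_, ?_⟩
  · apply almost hε hε2
    have key := Pool.Agent.Y892.UF.union_lim Nat.Prime Pool.Agent.Y892.UF.Two
      Pool.Agent.Y892.UF.Semi (fun D => ¬ Pool.Agent.H38R2.CG3.GoodE a ((ε / 4) ^ 2) D)
      (by convert Pool.Agent.Y892.UF.prime_lim a _ ha hε')
      (by convert Pool.Agent.Y892.UF.two_lim a _ ha hε')
      (by convert Pool.Agent.Y892.UF.semi_lim a _ ha hε')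
    convert key
    all_goals rfl
  · apply almost hε hε2
    convert Pool.Agent.Y892.UF.prime_lim a _ ha hε'
  · apply almost hε hε2
    exact Pool.Agent.Y892.UF.semi_lim a _ ha hε'
  · apply almost hε hε2
    exact Pool.Agent.Y892.UF.two_lim a _ ha hε'
  · have hall : Tendsto (fun X : ℕ => (((Finset.Icc 2 X).filter
        (fun d => Squarefree d ∧ ¬ Pool.Agent.H38R2.CG3.GoodE a ((ε / 4) ^ 2) d)).card : ℝ) / X)
        atTop (nhds 0) := by
      convert Pool.Agent.H38R2.CG3.finalE_true a _ ha hε'
    refine squeeze_zero (fun X => by positivity) (fun X => ?_) hall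
    refine div_le_div_of_nonneg_right ?_ (by positivity)
    rw [Nat.cast_le]
    apply card_le_card
    intro d hd
    rw [mem_filter] at hd ⊢
    exact ⟨hd.1, hd.2.1, fun hg => hd.2.2 (good_of hε hε2 hg)⟩

end Pool.Agent.Results.MP_321647_nt.MajorityProducts
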