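import Pool.Agent.Q162.CE.L4
import Pool.Agent.Q162.CE.L3
import Pool.Agent.Y892.UG.V7
import Pool.Agent.Y892.UF.G2

/-!
# Unique factorisation has short certificates, for 100% of the radicands

By genus theory the ring of integers of `ℚ(√d)` can have unique factorisation only if `d` is a prime, or
twice a prime `≡ 3 mod 4`, or a product of two primes `≡ 3 mod 4` (the candidates).

Let `a > 2`.  For 100% of the candidates `d` (and for 100% of the primes, of the products of two primes
`≡ 3 mod 4`, of the numbers `2 p`, and of all squarefree `d`) the following holds for `K = ℚ(√d)`: the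
ring of integers has unique factorisation if and only if there is a certificate, that is a set of at
most `(log d)^(a + 1)` elements `x` of `K`, each of them an algebraic integer `z` divided by a positive
integer `m`, with `m` and both conjugates of `z` of absolute value at most `d^(a + 1)`, such that
every prime ideal of norm at most `(log d)^a` is generated by a product of powers of the elements `x`.
-/

set_option autoImplicit false

namespace Pool.Agent.Results.MP_321647_nt.ShortCertificates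

open Filter Finset NumberField
open scoped Classical nonZeroDivisors

/-- The element `x` of `K` is an algebraic integer `z` divided by a positive integer `m`, where `m` and
the absolute values of the two real conjugates of `z` are at most `R`. -/
def Short (K : Type) [Field K] [NumberField K] (σ τ : K →+* ℝ) (R : ℝ) (x : K) : Prop :=
  ∃ (m : ℕ) (z : 𝓞 K), 0 < m ∧ (m : ℝ) ≤ R ∧ (m : K) * x = (z : K) ∧
    |σ (z : K)| ≤ R ∧ |τ (z : K)| ≤ R

/-- A certificate of the parameters `B`, `N`, `R`: a set `T` of at most `N` short elements of the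
multiplicative group of `K`, such that every nonzero prime ideal of norm at most `B` is generated, as a
fractional ideal, by an element of the group generated by `T`. -/
def Certificate (K : Type) [Field K] [NumberField K] (σ τ : K →+* ℝ) (B N R : ℝ)
    (T : Finset Kˣ) : Prop :=
  (T.card : ℝ) ≤ N ∧ (∀ x ∈ T, Short K σ τ R (x : K)) ∧
  ∀ P : Ideal (𝓞 K), P.IsPrime → P ≠ ⊥ → (Ideal.absNorm P : ℝ) ≤ B →
    ∃ x ∈ Subgroup.closure (T : Set Kˣ),
      FractionalIdeal.spanSingleton (𝓞 K)⁰ ((x : Kˣ) : K) = (P : FractionalIdeal (𝓞 K)⁰ K)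

/-- The property of the integer `d` in the theorem, for every quadratic field `K` containing a square
root of `d`, with its two real embeddings `σ` and `τ`. -/
def Good (a : ℝ) (d : ℕ) : Prop :=
  ∀ (K : Type) [Field K] [NumberField K], Module.finrank ℚ K = 2 →
    (∃ x : K, x ^ 2 = (d : K)) → ∀ σ τ : K →+* ℝ, σ ≠ τ →
    (UniqueFactorizationMonoid (𝓞 K) ↔ ∃ T : Finset Kˣ,
      Certificate K σ τ ((Real.log d) ^ a) ((Real.log d) ^ (a + 1)) ((d : ℝ) ^ (a + 1)) T)

/-- `d = 2 p` with a prime `p ≡ 3 mod 4`. -/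
def TwicePrime (d : ℕ) : Prop := ∃ p : ℕ, p.Prime ∧ p % 4 = 3 ∧ d = 2 * p

/-- `d = p q` with two different primes `p ≡ q ≡ 3 mod 4`. -/
def PrimePair (d : ℕ) : Prop :=
  ∃ p q : ℕ, p.Prime ∧ q.Prime ∧ p < q ∧ p % 4 = 3 ∧ q % 4 = 3 ∧ d = p * q

/-- The radicands that can have unique factorisation. -/
def Candidate (d : ℕ) : Prop := d.Prime ∨ TwicePrime d ∨ PrimePair d

/-- The proportion of the numbers up to `X` with the property `F` that do not have the property `G`
tends to zero as `X` tends to infinity. -/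
def AlmostAll (F G : ℕ → Prop) : Prop :=
  Tendsto (fun X : ℕ => (((Finset.Icc 1 X).filter (fun d => F d ∧ ¬ G d)).card : ℝ) /
    (((Finset.Icc 1 X).filter F).card : ℝ)) atTop (nhds 0)

open Pool.Agent.H951R5.AR Pool.Agent.Q162.CE in
/-- for large radicands -/
theorem good_of (a : ℝ) (ha : 2 < a) : ∃ d0 : ℕ, ∀ d : ℕ, d0 ≤ d → GoodAR a d → Good a d := by
  obtain ⟨d1, hd1⟩ := size_large a (by linarith)
  obtain ⟨d2, hd2⟩ := card_large a ha
  refine ⟨max (max d1 d2) 1, fun d hd h K _ _ hK hx σ τ hst => ?_⟩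
  obtain ⟨hB, hR⟩ := hd1 d ((le_max_left _ _).trans ((le_max_left _ _).trans hd))
  have hN := hd2 d ((le_max_right _ _).trans ((le_max_left _ _).trans hd))
  have hdpos : (0 : ℝ) < d := by exact_mod_cast (le_max_right _ _).trans hd
  obtain ⟨-, hgen, hiff⟩ := h K hK hx σ τ hst
  obtain ⟨B, hBd⟩ : ∃ B, B = (Real.log d) ^ a := ⟨_, rfl⟩
  obtain ⟨n, hnd⟩ : ∃ n, n = 1 + Real.log d / Real.log (Real.log d) := ⟨_, rfl⟩
  rw [← hBd, ← hnd] at hR
  rw [← hBd] at hB hN ⊢
  rw [← hBd, ← hnd] at hgen hiff
  rw [← hnd] at hN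
  constructor
  · intro hU
    have hPI : IsPrincipalIdealRing (𝓞 K) :=
      IsPrincipalIdealRing.of_isDedekindDomain_of_uniqueFactorizationMonoid (𝓞 K)
    obtain ⟨T, hT1, hT2, hT3⟩ := few_generate σ τ B n ⌈n⌉₊ (Nat.le_ceil n)
      (fun u hu => (hgen u hu).1) hPI
    refine ⟨T, ?_, fun x hx => ?_, fun P hP1 hP2 hP3 => hT3 P hP1 hP2 hP3⟩
    · have h1 : (T.card : ℝ) ≤ ((Nat.card (SB K B) +
        Nat.log 2 ((Nat.card (SB K B)).factorial * ⌈n⌉₊ ^ Nat.card (SB K B)) : ℕ) : ℝ) := by
        exact_mod_cast hT2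
      exact h1.trans (hN _ (SB_card K hK B))
    · obtain ⟨m, z, hm0, hm, hmz, h1, h2⟩ := small_size hK σ τ hst hB (hT1 hx)
      have hBn : 0 < B ^ n := by positivity
      refine ⟨m, z, hm0, ?_, hmz, h1.trans hR, h2.trans hR⟩
      refine hm.trans (le_trans ?_ hR)
      linarith
  · rintro ⟨T, -, -, hT⟩
    rw [hiff]
    intro P hP1 hP2 hP3
    obtain ⟨x, hx1, hx2⟩ := hT P hP1 hP2 hP3
    refine ⟨x, ?_, hx2⟩
    refine (hgen x ?_).1
    refine ⟨1, P, ⊤, ?_, ?_, ?_⟩
    · refine ⟨{P}, ?_, ?_, ?_⟩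
      · intro Q hQ
        rw [Multiset.mem_singleton] at hQ
        rw [hQ]
        exact ⟨hP1, hP2, hP3⟩
      · simp
      · simp
    · refine ⟨0, ?_, ?_, ?_⟩
      · intro Q hQ
        exact absurd hQ (Multiset.notMem_zero Q)
      · simp
      · rw [Multiset.prod_zero, Ideal.one_eq_top]
    · rw [FractionalIdeal.coeIdeal_top, mul_one]
      exact hx2

/-- the number of elements of an infinite set up to `X` tends to infinity -/
theorem count_tendsto (F : ℕ → Prop) (hF : {d | F d}.Infinite) :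
    Tendsto (fun X : ℕ => (((Finset.Icc 1 X).filter F).card : ℝ)) atTop atTop := by
  have h1 : Tendsto (fun X : ℕ => ((Finset.Icc 1 X).filter F).card) atTop atTop := by
    rw [tendsto_atTop]
    intro N
    obtain ⟨S, hS1, hS2⟩ := (hF.sdiff (Set.finite_singleton 0)).exists_subset_card_eq N
    filter_upwards [eventually_ge_atTop (S.sup id)] with X hX
    rw [← hS2]
    apply card_le_card
    intro d hd
    have h2 := hS1 hd
    rw [mem_filter, mem_Icc]
    refine ⟨⟨Nat.one_le_iff_ne_zero.2 fun h => h2.2 h, ?_⟩, h2.1⟩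
    exact (le_sup (f := id) hd).trans hX
  exact tendsto_natCast_atTop_atTop.comp h1

/-- finitely many exceptions do not matter -/
theorem almost_mono (F G G' : ℕ → Prop) (hF : {d | F d}.Infinite) (d0 : ℕ)
    (himp : ∀ d, d0 ≤ d → G d → G' d) (h : AlmostAll F G) : AlmostAll F G' := by
  unfold AlmostAll at h ⊢
  have h2 : Tendsto (fun X : ℕ => (d0 : ℝ) / (((Finset.Icc 1 X).filter F).card : ℝ)) atTop
      (nhds 0) := (count_tendsto F hF).const_div_atTop _
  have h3 := h.add h2
  rw [add_zero] at h3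
  refine squeeze_zero (fun X => by positivity) (fun X => ?_) h3
  rw [← add_div]
  refine div_le_div_of_nonneg_right ?_ (by positivity)
  have hsub : (Finset.Icc 1 X).filter (fun d => F d ∧ ¬ G' d) ⊆
      (Finset.Icc 1 X).filter (fun d => F d ∧ ¬ G d) ∪ Finset.range d0 := by
    intro d hd
    rw [mem_filter] at hd
    rw [mem_union, mem_filter, mem_range]
    by_cases hg : G d
    · right
      by_contra hcon
      exact hd.2.2 (himp d (not_lt.1 hcon) hg)
    · left
      exact ⟨hd.1, hd.2.1, hg⟩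
  have h4 := (card_le_card hsub).trans (card_union_le _ _)
  rw [card_range] at h4
  exact_mod_cast h4

theorem almost (F G : ℕ → Prop)
    (h : Tendsto (fun X : ℕ => (((Finset.Ioc 0 X).filter
      (fun D => F D ∧ ¬ G D)).card : ℝ) /
      (((Finset.Ioc 0 X).filter F).card : ℝ)) atTop (nhds 0)) : AlmostAll F G := by
  unfold AlmostAll
  refine h.congr (fun X => ?_)
  have e1 : Finset.Ioc 0 X = Finset.Icc 1 X := by
    ext d
    rw [mem_Ioc, mem_Icc]
    omega
  rw [e1]

theorem infinite_three (k : ℕ) (hk : 0 < k) (N : ℕ) :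
    {d | ∃ p : ℕ, p.Prime ∧ p % 4 = 3 ∧ N < p ∧ d = k * p}.Infinite := by
  have h3 : IsUnit (3 : ZMod 4) := by decide
  rw [Set.infinite_iff_exists_gt]
  intro M
  obtain ⟨p, hp1, hp2, hp3⟩ := Nat.forall_exists_prime_gt_and_eq_mod h3 (M + N)
  refine ⟨k * p, ⟨p, hp2, ?_, by omega, rfl⟩, ?_⟩
  · have h4 : ((p : ℕ) : ZMod 4) = ((3 : ℕ) : ZMod 4) := by
      rw [hp3]
      rfl
    rw [ZMod.natCast_eq_natCast_iff'] at h4
    omega
  · have : p ≤ k * p := Nat.le_mul_of_pos_left p hk
    omega

theorem result :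
    (∀ d : ℕ, 1 < d → Squarefree d → ∀ (K : Type) [Field K] [NumberField K],
      Module.finrank ℚ K = 2 → (∃ x : K, x ^ 2 = (d : K)) →
        UniqueFactorizationMonoid (𝓞 K) → Candidate d) ∧
    ∀ a : ℝ, 2 < a →
      AlmostAll Candidate (Good a) ∧ AlmostAll Nat.Prime (Good a) ∧
        AlmostAll PrimePair (Good a) ∧ AlmostAll TwicePrime (Good a) ∧
        Tendsto (fun X : ℕ => (((Finset.Icc 2 X).filter
          (fun d => Squarefree d ∧ ¬ Good a d)).card : ℝ) / X) atTop (nhds 0) := by
  refine ⟨fun d hd1 hds K _ _ hK hx hU =>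
    Pool.Agent.Y892.UF.cand_of_ufd K d hd1 hds hK hx hU, fun a ha => ?_⟩
  obtain ⟨d0, hd0⟩ := good_of a ha
  have hprime : {d | Nat.Prime d}.Infinite := Nat.infinite_setOfPred_prime
  have htwo : {d | TwicePrime d}.Infinite := by
    refine (infinite_three 2 (by norm_num) 0).mono ?_
    rintro d ⟨p, hp, hp4, -, rfl⟩
    exact ⟨p, hp, hp4, rfl⟩
  have hpair : {d | PrimePair d}.Infinite := by
    refine (infinite_three 3 (by norm_num) 3).mono ?_
    rintro d ⟨p, hp, hp4, h3, rfl⟩
    exact ⟨3, p, Nat.prime_three, hp, h3, by norm_num, hp4, rfl⟩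
  have hcand : {d | Candidate d}.Infinite := hprime.mono fun d hd => Or.inl hd
  refine ⟨almost_mono _ _ _ hcand d0 hd0 (almost _ _ ?_),
    almost_mono _ _ _ hprime d0 hd0 (almost _ _ ?_),
    almost_mono _ _ _ hpair d0 hd0 (almost _ _ ?_),
    almost_mono _ _ _ htwo d0 hd0 (almost _ _ ?_), ?_⟩
  · convert Pool.Agent.Y892.UG.cand_limAR a ha
    all_goals rfl
  · convert Pool.Agent.Y892.UG.prime_limAR a ha
  · exact Pool.Agent.Y892.UG.semi_limAR a ha
  · exact Pool.Agent.Y892.UG.two_limAR a ha
  · have h1 := Pool.Agent.H951R5.AR.finalAR_true a ha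
    have h2 : Tendsto (fun X : ℕ => (d0 : ℝ) / (X : ℝ)) atTop (nhds 0) :=
      tendsto_natCast_atTop_atTop.const_div_atTop _
    have h3 := h1.add h2
    rw [add_zero] at h3
    refine squeeze_zero (fun X => by positivity) (fun X => ?_) h3
    rw [← add_div]
    refine div_le_div_of_nonneg_right ?_ (by positivity)
    have e : (Nat.card {d : ℕ // 2 ≤ d ∧ d ≤ X ∧ Squarefree d ∧
        ¬ Pool.Agent.H951R5.AR.GoodAR a d}) =
        ((Finset.Icc 2 X).filter (fun d => Squarefree d ∧
          ¬ Pool.Agent.H951R5.AR.GoodAR a d)).card := by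
      refine Nat.subtype_card _ fun d => ?_
      rw [Finset.mem_filter, Finset.mem_Icc]
      tauto
    rw [e]
    have hsub : (Finset.Icc 2 X).filter (fun d => Squarefree d ∧ ¬ Good a d) ⊆
        (Finset.Icc 2 X).filter (fun d => Squarefree d ∧
          ¬ Pool.Agent.H951R5.AR.GoodAR a d) ∪ Finset.range d0 := by
      intro d hd
      rw [mem_filter] at hd
      rw [mem_union, mem_filter, mem_range]
      by_cases hg : Pool.Agent.H951R5.AR.GoodAR a d
      · right
        by_contra hcon
        exact hd.2.2 (hd0 d (not_lt.1 hcon) hg)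
      · left
        exact ⟨hd.1, hd.2.1, hg⟩
    have h4 := (card_le_card hsub).trans (card_union_le _ _)
    rw [card_range] at h4
    exact_mod_cast h4

end Pool.Agent.Results.MP_321647_nt.ShortCertificates
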