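import Pool.Agent.Results.MP_321647_nt.CandidateRadicands
import Pool.Agent.Q118.UF.Field
import Pool.Agent.Q118.UF.Dens

/-!
# Unique factorisation is visible in the convergents of `√d` with tiny prime norms

By genus theory the ring of integers of `ℚ(√d)`, `d > 1` squarefree, can have unique factorisation only
if `d` is a prime, or twice a prime `≡ 3 mod 4`, or a product of two primes `≡ 3 mod 4`.

For every `a > 2` the following holds for 100% of these candidates `d` (and also for 100% of the primes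
`d`, of the products of two primes `≡ 3 mod 4` and of the doubles of primes `≡ 3 mod 4`):

* the ring of integers of `ℚ(√d)` has unique factorisation if and only if for each prime
  `q ≤ (log d)^a` which is not inert there is a convergent `x / y` of the continued fraction of `√d`
  with `|x² - d y²| = q` or `|x² - d y²| = 4 q`;
* if there are such convergents for the primes `q ≤ (log d)^a` which are not inert, then there are such
  convergents for all primes `q ≤ √d / 8` which are not inert.
-/

set_option autoImplicit false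

namespace Pool.Agent.Results.MP_321647_nt.SmallNormConvergents

open Filter Finset NumberField
open scoped Classical

/-- The prime `q` is not inert in `ℚ(√d)`, `d` squarefree: `q = 2` and `d` is not `5 mod 8`, or
`q ≠ 2` and `d` is a square modulo `q`. -/
def NotInert (d q : ℕ) : Prop :=
  (q = 2 ∧ d % 8 ≠ 5) ∨ (q ≠ 2 ∧ ∃ z : ℤ, (q : ℤ) ∣ z ^ 2 - d)

/-- There is a convergent `x / y` (in lowest terms) of the continued fraction of `√d` such that
`|x² - d y²|` is `q` or `4 q`. -/
def AtConvergent (d q : ℕ) : Prop :=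
  ∃ n : ℕ, |((√(d : ℝ)).convergent n).num ^ 2 - (d : ℤ) * ((√(d : ℝ)).convergent n).den ^ 2| =
      (q : ℤ) ∨
    |((√(d : ℝ)).convergent n).num ^ 2 - (d : ℤ) * ((√(d : ℝ)).convergent n).den ^ 2| =
      4 * (q : ℤ)

/-- All primes `q ≤ B` which are not inert in `ℚ(√d)` are found at the convergents of `√d`. -/
def AllAtConvergents (d : ℕ) (B : ℝ) : Prop :=
  ∀ q : ℕ, q.Prime → (q : ℝ) ≤ B → NotInert d q → AtConvergent d q

/-- The property of the integer `d` in the theorem. -/
def Good (a : ℝ) (d : ℕ) : Prop :=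
  (∀ (K : Type) [Field K] [NumberField K], Module.finrank ℚ K = 2 → (∃ x : K, x ^ 2 = (d : K)) →
    (UniqueFactorizationMonoid (𝓞 K) ↔ AllAtConvergents d ((Real.log d) ^ a))) ∧
  (AllAtConvergents d ((Real.log d) ^ a) → AllAtConvergents d (√(d : ℝ) / 8))

/-- `d = 2 p` with a prime `p ≡ 3 mod 4`. -/
def TwicePrime (d : ℕ) : Prop := ∃ p : ℕ, p.Prime ∧ p % 4 = 3 ∧ d = 2 * p

/-- `d = p q` with two different primes `p ≡ q ≡ 3 mod 4`. -/
def PrimePair (d : ℕ) : Prop :=
  ∃ p q : ℕ, p.Prime ∧ q.Prime ∧ p < q ∧ p % 4 = 3 ∧ q % 4 = 3 ∧ d = p * q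

/-- The radicands that can have unique factorisation. -/
def Candidate (d : ℕ) : Prop := d.Prime ∨ TwicePrime d ∨ PrimePair d

/-- The proportion of the numbers up to `X` with the property `F` that do not have the property `G`
tends to zero as `X` tends to infinity. -/
def AlmostAll (F G : ℕ → Prop) : Prop :=
  Tendsto (fun X : ℕ => (((Finset.Icc 1 X).filter (fun d => F d ∧ ¬ G d)).card : ℝ) /
    (((Finset.Icc 1 X).filter F).card : ℝ)) atTop (nhds 0)

theorem cand_sqf {d : ℕ} (h : Candidate d) : 1 < d ∧ Squarefree d := by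
  rcases h with h | ⟨p, hp, hp4, rfl⟩ | ⟨p, q, hp, hq, hpq, -, -, rfl⟩
  · exact ⟨h.one_lt, h.prime.squarefree⟩
  · refine ⟨by have := hp.two_le; omega, ?_⟩
    rw [Nat.squarefree_mul_iff]
    refine ⟨?_, Nat.prime_two.prime.squarefree, hp.prime.squarefree⟩
    rw [Nat.coprime_two_left, Nat.odd_iff]
    omega
  · refine ⟨by have := hp.two_le; have := hq.two_le; nlinarith, ?_⟩
    rw [Nat.squarefree_mul_iff]
    exact ⟨(Nat.coprime_primes hp hq).2 hpq.ne, hp.prime.squarefree, hq.prime.squarefree⟩

/-- The main step. -/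
theorem good_of_good {a : ℝ} {d : ℕ} (hd1 : 1 < d) (hds : Squarefree d)
    (hbig : 8 * (Real.log d) ^ a ≤ √(d : ℝ))
    (h : CandidateRadicands.Good a 1 d) : Good a d := by
  have hN0d := Pool.Agent.H38R2.CG.T_N0d
  have hN0 := Pool.Agent.H38R2.CG.T_N0
  have hSPL := Pool.Agent.H38R2.CG.T_SPL hN0
  have key : ∀ (K : Type) [Field K] [NumberField K], Module.finrank ℚ K = 2 →
      (∃ x : K, x ^ 2 = (d : K)) →
      (UniqueFactorizationMonoid (𝓞 K) → AllAtConvergents d (√(d : ℝ) / 8)) ∧
      (AllAtConvergents d ((Real.log d) ^ a) → UniqueFactorizationMonoid (𝓞 K)) := by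
    intro K _ _ h2 hx
    have hdisc : NumberField.discr K = ((Pool.Agent.H38R2.CG.FINh.Dof d : ℕ) : ℤ) := by
      rw [hN0d K d hd1 hds h2 hx]
      unfold Pool.Agent.H38R2.CG.FINh.Dof
      split_ifs <;> simp
    refine ⟨fun hU q hq hqB hc => ?_, fun hA => ?_⟩
    · exact Pool.Agent.Q118.UF.atConv_of_rep hq (by linarith)
        (Pool.Agent.Q118.UF.rep_of_ufd hSPL hN0 hd1 hds h2 hdisc hU hq hc)
    · obtain ⟨-, -, h3⟩ := h K h2 hx
      refine h3.2 fun P hP hPB => ?_
      exact Pool.Agent.Q118.UF.principal_of_rep hSPL hN0 hd1 hds h2 hdisc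
        (fun q hq hqB hc => Pool.Agent.Q118.UF.rep_of_atConv (hA q hq hqB hc)) P hP hPB
  have hmono : AllAtConvergents d (√(d : ℝ) / 8) → AllAtConvergents d ((Real.log d) ^ a) :=
    fun hB q hq hqB hc => hB q hq (by linarith) hc
  refine ⟨fun K _ _ h2 hx => ?_, fun hA => ?_⟩
  · obtain ⟨h1, h3⟩ := key K h2 hx
    exact ⟨fun hU => hmono (h1 hU), h3⟩
  · obtain ⟨K, i1, i2, h2, hx⟩ := Pool.Agent.H38R2.CG.N0eh.exists_field d hd1 hds
    obtain ⟨h1, h3⟩ := key K h2 hx
    exact h1 (h3 hA)

theorem transfer (F : ℕ → Prop) (hF : {d | F d}.Infinite) (hFc : ∀ d, F d → Candidate d) (a : ℝ)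
    (h : CandidateRadicands.AlmostAll F (CandidateRadicands.Good a 1)) :
    AlmostAll F (Good a) := by
  obtain ⟨d₀, hd₀⟩ := Pool.Agent.Q118.UF.log_small a
  refine Pool.Agent.Q118.UF.almost_of_large F _ _ hF d₀ (fun d hd hFd hG => ?_) h
  obtain ⟨h1, h2⟩ := cand_sqf (hFc d hFd)
  exact good_of_good h1 h2 (hd₀ d hd) hG

/-- For every `a > 2`: for 100% of the candidate radicands, of the primes, of the products of two primes
`≡ 3 mod 4` and of the doubles of primes `≡ 3 mod 4`, unique factorisation in the ring of integers of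
`ℚ(√d)` is equivalent to the existence of convergents `x / y` of `√d` with `|x² - d y²|` equal to `q`
or `4 q` for all primes `q ≤ (log d)^a` which are not inert, and then there are such convergents for
all primes `q ≤ √d / 8` which are not inert. -/
theorem result (a : ℝ) (ha : 2 < a) :
    AlmostAll Candidate (Good a) ∧ AlmostAll Nat.Prime (Good a) ∧
      AlmostAll PrimePair (Good a) ∧ AlmostAll TwicePrime (Good a) := by
  obtain ⟨-, hmain⟩ := CandidateRadicands.result
  obtain ⟨h1, h2, h3⟩ := hmain a 1 ha one_pos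
  have hthree := Pool.Agent.Q118.UF.inf_three
  refine ⟨transfer Candidate ?_ (fun d h => h) a ?_, transfer Nat.Prime ?_ (fun d h => Or.inl h) a ?_,
    transfer PrimePair ?_ (fun d h => Or.inr (Or.inr h)) a ?_,
    transfer TwicePrime ?_ (fun d h => Or.inr (Or.inl h)) a ?_⟩
  · exact Pool.Agent.Q118.UF.inf_primes.mono fun d hd => Or.inl hd
  · exact h1
  · exact Pool.Agent.Q118.UF.inf_primes
  · apply CandidateRadicands.almost
    convert Pool.Agent.Y892.UF.prime_lim a 1 ha one_pos
  · have h4 : ((fun p : ℕ => 3 * p) '' ({p : ℕ | p.Prime ∧ p % 4 = 3} \ {3})).Infinite := by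
      refine (hthree.sdiff (Set.finite_singleton 3)).image ?_
      intro x _ y _ hxy
      have : 3 * x = 3 * y := hxy
      omega
    refine h4.mono ?_
    rintro _ ⟨p, ⟨⟨hp, hp4⟩, hp3⟩, rfl⟩
    refine ⟨3, p, Nat.prime_three, hp, ?_, rfl, hp4, rfl⟩
    have h5 : p ≠ 3 := by simpa using hp3
    have := hp.two_le
    omega
  · exact h2
  · have h4 : ((fun p : ℕ => 2 * p) '' {p : ℕ | p.Prime ∧ p % 4 = 3}).Infinite := by
      refine hthree.image ?_
      intro x _ y _ hxy
      have : 2 * x = 2 * y := hxy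
      omega
    refine h4.mono ?_
    rintro _ ⟨p, ⟨hp, hp4⟩, rfl⟩
    exact ⟨p, hp, hp4, rfl⟩
  · exact h3

end Pool.Agent.Results.MP_321647_nt.SmallNormConvergents
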