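import Pool.Agent.Q162.RU.R6
import Pool.Agent.Y892.UF.G2

/-!
# Class group characters do not concentrate on tiny primes, for 100% of the radicands

By genus theory the ring of integers of `ℚ(√d)` can have unique factorisation only if `d` is a prime, or
twice a prime `≡ 3 mod 4`, or a product of two primes `≡ 3 mod 4` (the candidates).

Let `a > 2` and `C > 0`.  For 100% of the candidates `d` (and for 100% of the primes, of the products
of two primes `≡ 3 mod 4`, of the numbers `2 p`, and of all squarefree `d`) there is a `y` with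
`2 y ≤ (log d)^a` such that the following holds for `K = ℚ(√d)` and the set `T` of the prime ideals
whose norm is a prime of `(y, 2 y]`.

* For every nontrivial character `χ` of the ideal class group, the absolute value of the sum of `χ(P)`
  over `P ∈ T` is at most `(1 - C log log d / log d) |T|`.  In other words, the Cayley graph of
  the class group with respect to the tiny primes has a spectral gap of at least
  `C log log d / log d`, at both ends of the spectrum.
* For every proper subgroup `H` and every class `c`, at least `C (log d)^(a - 1)` of the prime ideals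
  of `T` have their class outside the coset `c H`.
* The ring of integers has unique factorisation if and only if fewer than `C (log d)^(a - 1)` of the
  prime ideals of norm at most `(log d)^a` are not principal.
-/

set_option autoImplicit false

namespace Pool.Agent.Results.MP_321647_nt.SpectralGap

open Filter Finset NumberField
open scoped Classical

/-- The nonzero prime ideals whose norm is a prime number of the interval (y, 2y]. -/
noncomputable def tiny (K : Type) [Field K] [NumberField K] (y : ℕ) :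
    Finset (nonZeroDivisors (Ideal (𝓞 K))) :=
  (Ideal.finite_setOfPred_absNorm_le₀ (S := 𝓞 K) (2 * y)).toFinset.filter
    (fun P => (P : Ideal (𝓞 K)).IsPrime ∧ (Ideal.absNorm (P : Ideal (𝓞 K))).Prime ∧
      y < Ideal.absNorm (P : Ideal (𝓞 K)))

/-- Every nontrivial character of the class group has a sum of absolute value at most
`(1 - δ) |T|` over the set `T` of the prime ideals whose norm is a prime of (y, 2y]. -/
def HasGap (K : Type) [Field K] [NumberField K] (y : ℕ) (δ : ℝ) : Prop :=
  ∀ χ : ClassGroup (𝓞 K) →* ℂ, (∃ c, χ c ≠ 1) →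
    ‖∑ P ∈ tiny K y, χ (ClassGroup.mk0 P)‖ ≤ (1 - δ) * (tiny K y).card

/-- At least `m` prime ideals whose norm is a prime of (y, 2y] have a class outside `c H`, for every
proper subgroup `H` of the class group and every class `c`. -/
def AvoidsCosets (K : Type) [Field K] [NumberField K] (y : ℕ) (m : ℝ) : Prop :=
  ∀ (H : Subgroup (ClassGroup (𝓞 K))) (c : ClassGroup (𝓞 K)), H ≠ ⊤ →
    m ≤ ((tiny K y).filter (fun P => c⁻¹ * ClassGroup.mk0 P ∉ H)).card

/-- The number of the nonprincipal prime ideals of norm at most `B`. -/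
noncomputable def nonprincipal (K : Type) [Field K] [NumberField K] (B : ℝ) : ℕ :=
  Nat.card {P : Ideal (𝓞 K) // P.IsPrime ∧ (Ideal.absNorm P : ℝ) ≤ B ∧ ¬ P.IsPrincipal}

/-- The property of the integer `d` in the theorem, for every quadratic field `K` containing a square
root of `d`. -/
def Good (a C : ℝ) (d : ℕ) : Prop :=
  ∀ (K : Type) [Field K] [NumberField K], Module.finrank ℚ K = 2 →
    (∃ x : K, x ^ 2 = (d : K)) →
    (∃ y : ℕ, 2 * (y : ℝ) ≤ (Real.log d) ^ a ∧
      HasGap K y (C * Real.log (Real.log d) / Real.log d) ∧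
      AvoidsCosets K y (C * (Real.log d) ^ (a - 1))) ∧
    (UniqueFactorizationMonoid (𝓞 K) ↔
      (nonprincipal K ((Real.log d) ^ a) : ℝ) < C * (Real.log d) ^ (a - 1))

/-- `d = 2 p` with a prime `p ≡ 3 mod 4`. -/
def TwicePrime (d : ℕ) : Prop := ∃ p : ℕ, p.Prime ∧ p % 4 = 3 ∧ d = 2 * p

/-- `d = p q` with two different primes `p ≡ q ≡ 3 mod 4`. -/
def PrimePair (d : ℕ) : Prop :=
  ∃ p q : ℕ, p.Prime ∧ q.Prime ∧ p < q ∧ p % 4 = 3 ∧ q % 4 = 3 ∧ d = p * q

/-- The radicands that can have unique factorisation. -/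
def Candidate (d : ℕ) : Prop := d.Prime ∨ TwicePrime d ∨ PrimePair d

/-- The proportion of the numbers up to `X` with the property `F` that do not have the property `G`
tends to zero as `X` tends to infinity. -/
def AlmostAll (F G : ℕ → Prop) : Prop :=
  Tendsto (fun X : ℕ => (((Finset.Icc 1 X).filter (fun d => F d ∧ ¬ G d)).card : ℝ) /
    (((Finset.Icc 1 X).filter F).card : ℝ)) atTop (nhds 0)

theorem ufd_iff (K : Type) [Field K] [NumberField K] :
    UniqueFactorizationMonoid (𝓞 K) ↔ (⊥ : Subgroup (ClassGroup (𝓞 K))) = ⊤ := by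
  constructor
  · intro hU
    have hP : IsPrincipalIdealRing (𝓞 K) :=
      IsPrincipalIdealRing.of_isDedekindDomain_of_uniqueFactorizationMonoid (𝓞 K)
    have h1 : Fintype.card (ClassGroup (𝓞 K)) = 1 := card_classGroup_eq_one_iff.2 hP
    rw [Fintype.card_eq_one_iff] at h1
    obtain ⟨x, hx⟩ := h1
    rw [eq_comm, Subgroup.eq_bot_iff_forall]
    intro c _
    rw [hx c, hx 1]
  · intro h
    have hcard : Fintype.card (ClassGroup (𝓞 K)) = 1 := by
      rw [Fintype.card_eq_one_iff]
      refine ⟨1, fun c => ?_⟩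
      have hc : c ∈ (⊥ : Subgroup (ClassGroup (𝓞 K))) := by
        rw [h]
        exact Subgroup.mem_top c
      exact Subgroup.mem_bot.1 hc
    have : IsPrincipalIdealRing (𝓞 K) := by
      rw [← card_classGroup_eq_one_iff]
      exact hcard
    infer_instance

theorem tiny_le (K : Type) [Field K] [NumberField K] (y : ℕ) (B : ℝ) (hB : 2 * (y : ℝ) ≤ B) :
    ((tiny K y).filter (fun P => (1 : ClassGroup (𝓞 K))⁻¹ * ClassGroup.mk0 P ∉
      (⊥ : Subgroup (ClassGroup (𝓞 K))))).card ≤ nonprincipal K B := by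
  unfold nonprincipal
  have hfin : Finite {P : Ideal (𝓞 K) // P.IsPrime ∧ (Ideal.absNorm P : ℝ) ≤ B ∧
      ¬ P.IsPrincipal} := by
    have h1 := Ideal.finite_setOfPred_absNorm_le (S := 𝓞 K) ⌊B⌋₊
    refine Set.Finite.subset h1 ?_
    intro P hP
    exact Nat.le_floor hP.2.1
  obtain ⟨F, hF⟩ : ∃ F, F = (tiny K y).filter (fun P => (1 : ClassGroup (𝓞 K))⁻¹ *
    ClassGroup.mk0 P ∉ (⊥ : Subgroup (ClassGroup (𝓞 K)))) := ⟨_, rfl⟩
  rw [← hF]
  have hcard : F.card = Nat.card {P : nonZeroDivisors (Ideal (𝓞 K)) // P ∈ F} := by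
    rw [Nat.card_eq_fintype_card, Fintype.card_coe]
  rw [hcard]
  have hmem : ∀ P ∈ F, (P : Ideal (𝓞 K)).IsPrime ∧ (Ideal.absNorm (P : Ideal (𝓞 K)) : ℝ) ≤ B ∧
      ¬ (P : Ideal (𝓞 K)).IsPrincipal := by
    intro P hP
    rw [hF, mem_filter] at hP
    obtain ⟨h1, h2⟩ := hP
    have h3 := Pool.Agent.Q162.RU.mem_tiny.1 h1
    refine ⟨h3.1, ?_, ?_⟩
    · refine le_trans ?_ hB
      exact_mod_cast h3.2.2.2
    · intro h4
      apply h2
      rw [inv_one, one_mul, Subgroup.mem_bot, ClassGroup.mk0_eq_one_iff]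
      exact h4
  refine Nat.card_le_card_of_injective
    (fun z : {P : nonZeroDivisors (Ideal (𝓞 K)) // P ∈ F} =>
      (⟨(z.1 : Ideal (𝓞 K)), hmem z.1 z.2⟩ : {P : Ideal (𝓞 K) // P.IsPrime ∧
        (Ideal.absNorm P : ℝ) ≤ B ∧ ¬ P.IsPrincipal})) ?_
  intro z w h
  apply Subtype.ext
  apply Subtype.ext
  have h1 := congrArg (fun v => (v.1 : Ideal (𝓞 K))) h
  exact h1

theorem good_of (a C : ℝ) (hC : 0 < C) (d : ℕ) (hd : 1 < d)
    (h : Pool.Agent.Q162.RU.GoodS a C d) : Good a C d := by
  intro K _ _ hK hx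
  obtain ⟨y, hy, hgap, hco⟩ := h K hK hx
  have hlog : 0 < Real.log d := Real.log_pos (by exact_mod_cast hd)
  have hco' : AvoidsCosets K y (C * (Real.log d) ^ (a - 1)) := fun H c hH => hco H c hH
  refine ⟨⟨y, hy, fun χ hχ => hgap χ hχ, hco'⟩, fun hU => ?_, fun hlt => ?_⟩
  · have hP : IsPrincipalIdealRing (𝓞 K) :=
      IsPrincipalIdealRing.of_isDedekindDomain_of_uniqueFactorizationMonoid (𝓞 K)
    have h0 : nonprincipal K ((Real.log d) ^ a) = 0 := by
      unfold nonprincipal
      have : IsEmpty {P : Ideal (𝓞 K) // P.IsPrime ∧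
          (Ideal.absNorm P : ℝ) ≤ (Real.log d) ^ a ∧ ¬ P.IsPrincipal} :=
        ⟨fun z => z.2.2.2 (IsPrincipalIdealRing.principal z.1)⟩
      exact Nat.card_of_isEmpty
    rw [h0, Nat.cast_zero]
    positivity
  · rw [ufd_iff]
    by_contra hne
    have h1 := hco' ⊥ 1 hne
    have h2 := tiny_le K y ((Real.log d) ^ a) hy
    have h3 : (((tiny K y).filter (fun P => (1 : ClassGroup (𝓞 K))⁻¹ * ClassGroup.mk0 P ∉
      (⊥ : Subgroup (ClassGroup (𝓞 K))))).card : ℝ) ≤ nonprincipal K ((Real.log d) ^ a) := by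
      exact_mod_cast h2
    linarith

theorem almost (F : ℕ → Prop) (hF : ∀ d, F d → 1 < d) (a C : ℝ) (hC : 0 < C)
    (h : Tendsto (fun X : ℕ => (((Finset.Ioc 0 X).filter
      (fun D => F D ∧ ¬ Pool.Agent.Q162.RU.GoodS a C D)).card : ℝ) /
      (((Finset.Ioc 0 X).filter F).card : ℝ)) atTop (nhds 0)) : AlmostAll F (Good a C) := by
  unfold AlmostAll
  refine squeeze_zero (fun X => by positivity) (fun X => ?_) h
  have e1 : Finset.Ioc 0 X = Finset.Icc 1 X := by
    ext d
    rw [mem_Ioc, mem_Icc]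
    omega
  rw [e1]
  refine div_le_div_of_nonneg_right ?_ (by positivity)
  rw [Nat.cast_le]
  apply card_le_card
  intro d hd
  rw [mem_filter] at hd ⊢
  exact ⟨hd.1, hd.2.1, fun hg => hd.2.2 (good_of a C hC d (hF d hd.2.1) hg)⟩

theorem result :
    (∀ d : ℕ, 1 < d → Squarefree d → ∀ (K : Type) [Field K] [NumberField K],
      Module.finrank ℚ K = 2 → (∃ x : K, x ^ 2 = (d : K)) →
        UniqueFactorizationMonoid (𝓞 K) → Candidate d) ∧
    ∀ a C : ℝ, 2 < a → 0 < C →
      AlmostAll Candidate (Good a C) ∧ AlmostAll Nat.Prime (Good a C) ∧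
        AlmostAll PrimePair (Good a C) ∧ AlmostAll TwicePrime (Good a C) ∧
        Tendsto (fun X : ℕ => (((Finset.Icc 2 X).filter
          (fun d => Squarefree d ∧ ¬ Good a C d)).card : ℝ) / X) atTop (nhds 0) := by
  refine ⟨fun d hd1 hds K _ _ hK hx hU =>
    Pool.Agent.Y892.UF.cand_of_ufd K d hd1 hds hK hx hU, fun a C ha hC => ?_⟩
  obtain ⟨t0, ht0, hex⟩ := Pool.Agent.Q162.RU.exS a C ha hC
  have hAS := Pool.Agent.Q162.RU.ASQ_QQ a t0 ha ht0
  have hp := Pool.Agent.Q162.RU.primes_lim a ha _ hAS _ hex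
  have hs := Pool.Agent.Q162.RU.semis_lim a ha _ hAS _ hex
  have ht := Pool.Agent.Q162.RU.twos_lim a ha _ hAS _ hex
  have hall := Pool.Agent.Q162.RU.all_lim a ha _ hAS _ hex
  have hPP : ∀ d, PrimePair d → 1 < d := by
    rintro d ⟨p, q, hp, hq, -, -, -, rfl⟩
    exact Nat.one_lt_mul_iff.2 ⟨hp.pos, hq.pos, Or.inl hp.one_lt⟩
  have hTP : ∀ d, TwicePrime d → 1 < d := by
    rintro d ⟨p, hp, -, rfl⟩
    have := hp.pos
    omega
  refine ⟨almost _ ?_ a C hC ?_,
    almost _ (fun d hd => hd.one_lt) a C hC (by convert hp),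
    almost _ hPP a C hC (by convert hs; all_goals rfl),
    almost _ hTP a C hC (by convert ht; all_goals rfl), ?_⟩
  · rintro d (h | h | h)
    · exact h.one_lt
    · exact hTP d h
    · exact hPP d h
  · have key := Pool.Agent.Y892.UF.union_lim Nat.Prime Pool.Agent.Y892.UF.Two
      Pool.Agent.Y892.UF.Semi (fun D => ¬ Pool.Agent.Q162.RU.GoodS a C D)
      (by convert hp) (by convert ht) (by convert hs)
    convert key
    all_goals rfl
  · have hall' : Tendsto (fun X : ℕ => (((Finset.Icc 2 X).filter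
        (fun d => Squarefree d ∧ ¬ Pool.Agent.Q162.RU.GoodS a C d)).card : ℝ) / X) atTop
        (nhds 0) := by convert hall
    refine squeeze_zero (fun X => by positivity) (fun X => ?_) hall'
    refine div_le_div_of_nonneg_right ?_ (by positivity)
    rw [Nat.cast_le]
    apply card_le_card
    intro d hd
    rw [mem_filter, mem_Icc] at hd
    rw [mem_filter, mem_Icc]
    exact ⟨hd.1, hd.2.1, fun hg => hd.2.2 (good_of a C hC d (by omega) hg)⟩

end Pool.Agent.Results.MP_321647_nt.SpectralGap
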